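import Pool.Agent.H.MP_fe081e_lc.G

namespace Pool.Agent.Results.MP_fe081e_lc.Poly

open Pool.Agent.Lib.CX Pool.Agent.H.MP_fe081e_lc

theorem result : ∃ f : Gr → List (ℕ × ℕ), PT f ∧ ∀ a : Gr, a.G.Connected → Cograph a.G →
    SpTree a.G (Gr.G (a.1, f a)) ∧ ∀ T, SpTree a.G T → ec a.G (Gr.G (a.1, f a)) ≤ ec a.G T :=
  ⟨alg, PT.alg, fun _ => opt⟩

end Pool.Agent.Results.MP_fe081e_lc.Poly
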